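import Pool.Agent.H10.T2.Targets1

/-!
# VM: calculus of the spaces `VS`
-/

set_option autoImplicit false

open scoped Classical ComplexConjugate

namespace Pool.Agent.H42.T2

open AMt AMc AMe

variable {R : Type} [CommRing R] {Γ : Type} [Group Γ] [Fintype Γ] {K : Subgroup Γ}

lemma coeff_single_mul' (u : Γ) (z : MonoidAlgebra R Γ) (x : Γ) :
    (MonoidAlgebra.single u 1 * z).coeff x = z.coeff (u⁻¹ * x) := by
  rw [coeff_mul_group, Finset.sum_eq_single u]
  · rw [MonoidAlgebra.coeff_single, Finsupp.single_eq_same, one_mul]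
  · intro b _ hb
    rw [MonoidAlgebra.coeff_single, Finsupp.single_eq_of_ne hb, zero_mul]
  · intro h; exact absurd (Finset.mem_univ _) h

lemma coeff_mul_single' (u : Γ) (z : MonoidAlgebra R Γ) (x : Γ) :
    (z * MonoidAlgebra.single u 1).coeff x = z.coeff (x * u⁻¹) := by
  rw [coeff_mul_group, Finset.sum_eq_single (x * u⁻¹)]
  · have h : (x * u⁻¹)⁻¹ * x = u := by group
    rw [h, MonoidAlgebra.coeff_single, Finsupp.single_eq_same, mul_one]
  · intro b _ hb
    have h : b⁻¹ * x ≠ u := by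
      intro h
      apply hb
      rw [← h]
      group
    rw [MonoidAlgebra.coeff_single, Finsupp.single_eq_of_ne h, mul_zero]
  · intro h; exact absurd (Finset.mem_univ _) h

lemma coeff_cn (u : Γ) (z : MonoidAlgebra R Γ) (x : Γ) :
    (cn u z).coeff x = z.coeff (u⁻¹ * x * u) := by
  unfold cn
  rw [coeff_mul_single', coeff_single_mul', inv_inv, mul_assoc]

lemma coeff_cst (g : Γ) (z : MonoidAlgebra R Γ) (x : Γ) :
    (cst K g z).coeff x = if g⁻¹ * x ∈ K then z.coeff x else 0 := by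
  unfold cst
  rw [MonoidAlgebra.coeff_ofCoeff, Finsupp.filter_apply]

lemma nm_iff {h : Γ} (hh : Nm h K) (y : Γ) : h⁻¹ * y * h ∈ K ↔ y ∈ K := by
  have h1 := hh (h⁻¹ * y * h)
  have h2 : h * (h⁻¹ * y * h) * h⁻¹ = y := by group
  rw [h2] at h1
  exact h1.symm

lemma nm_mul {g h : Γ} (hg : Nm g K) (hh : Nm h K) : Nm (g * h) K := by
  intro x
  have h1 : g * h * x * (g * h)⁻¹ = g * (h * x * h⁻¹) * g⁻¹ := by group
  rw [h1, hg, hh]

lemma nm_one : Nm (1 : Γ) K := by
  intro x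
  simp

lemma nm_pow {g : Γ} (hg : Nm g K) (n : ℕ) : Nm (g ^ n) K := by
  induction n with
  | zero => rw [pow_zero]; exact nm_one
  | succ n ih => rw [pow_succ]; exact nm_mul ih hg

lemma vs_mul {g h : Γ} (hh : Nm h K) {z w : MonoidAlgebra R Γ} (hz : z ∈ VS R K g)
    (hw : w ∈ VS R K h) : z * w ∈ VS R K (g * h) := by
  refine ⟨fun x hx => ?_, fun k hk x => ?_⟩
  · rw [coeff_mul_group] at hx
    obtain ⟨a, -, ha⟩ := Finset.exists_ne_zero_of_sum_ne_zero hx
    have h1 := hz.1 a (left_ne_zero_of_mul ha)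
    have h2 := hw.1 _ (right_ne_zero_of_mul ha)
    have h3 : (g * h)⁻¹ * x = (h⁻¹ * (g⁻¹ * a) * h) * (h⁻¹ * (a⁻¹ * x)) := by group
    rw [h3]
    exact K.mul_mem ((nm_iff hh _).2 h1) h2
  · rw [coeff_mul_group, coeff_mul_group]
    rw [← Equiv.sum_comp (MulAut.conj k).toEquiv]
    refine Finset.sum_congr rfl fun a _ => ?_
    have h1 : (MulAut.conj k).toEquiv a = k * a * k⁻¹ := by simp [MulAut.conj_apply]
    rw [h1, hz.2 k hk a]
    have h2 : (k * a * k⁻¹)⁻¹ * (k * x * k⁻¹) = k * (a⁻¹ * x) * k⁻¹ := by group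
    rw [h2, hw.2 k hk]

lemma vs_comm {g h : Γ} {z w : MonoidAlgebra R Γ} (hz : z ∈ VS R K g)
    (hw : w ∈ VS R K h) : z * w = cn g w * z := by
  apply MonoidAlgebra.ext; ext x
  rw [coeff_mul_group, coeff_mul_group]
  refine Finset.sum_equiv ((Equiv.inv Γ).trans (Equiv.mulLeft x)) (fun _ => by simp) fun a _ => ?_
  have h1 : ((Equiv.inv Γ).trans (Equiv.mulLeft x)) a = x * a⁻¹ := rfl
  rw [h1]
  by_cases ha : z.coeff a = 0
  · have h2 : (x * a⁻¹)⁻¹ * x = a := by group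
    rw [h2, ha, mul_zero, zero_mul]
  · have hk := hz.1 a ha
    have h2 : (x * a⁻¹)⁻¹ * x = a := by group
    rw [h2, coeff_cn, mul_comm]
    congr 1
    have h3 := hw.2 _ hk (a⁻¹ * x)
    rw [← h3]
    congr 1
    group

lemma vs_one : VS R K 1 = (ZA R K K : Set (MonoidAlgebra R Γ)) := by
  ext z
  constructor
  · rintro ⟨h1, h2⟩
    refine ⟨fun g hg => ?_, h2⟩
    by_contra h
    apply hg
    have := h1 g h
    rwa [inv_one, one_mul] at this
  · rintro ⟨h1, h2⟩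
    refine ⟨fun g hg => ?_, h2⟩
    rw [inv_one, one_mul]
    by_contra h
    exact hg (h1 g h)

lemma one_vs : (1 : MonoidAlgebra R Γ) ∈ VS R K 1 := by
  rw [vs_one]
  exact (ZA R K K).one_mem

lemma vs_pow {g : Γ} (hg : Nm g K) {z : MonoidAlgebra R Γ} (hz : z ∈ VS R K g) (n : ℕ) :
    z ^ n ∈ VS R K (g ^ n) := by
  induction n with
  | zero => rw [pow_zero, pow_zero]; exact one_vs
  | succ n ih =>
    rw [pow_succ, pow_succ]
    exact vs_mul hg ih hz

lemma vs_cent {g : Γ} {z : MonoidAlgebra R Γ} (hz : z ∈ VS R K g) (c : MonoidAlgebra R Γ)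
    (hc : ∀ x, x ∉ K → c.coeff x = 0) : c * z = z * c := by
  apply MonoidAlgebra.ext; ext x
  rw [coeff_mul_group, coeff_mul_group]
  refine Finset.sum_equiv ((Equiv.inv Γ).trans (Equiv.mulLeft x)) (fun _ => by simp) fun a _ => ?_
  have h1 : ((Equiv.inv Γ).trans (Equiv.mulLeft x)) a = x * a⁻¹ := rfl
  have h2 : (x * a⁻¹)⁻¹ * x = a := by group
  rw [h1, h2]
  by_cases ha : a ∈ K
  · have h3 := hz.2 a ha (a⁻¹ * x)
    have h4 : a * (a⁻¹ * x) * a⁻¹ = x * a⁻¹ := by group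
    rw [h4] at h3
    rw [h3, mul_comm]
  · rw [hc a ha, zero_mul, mul_zero]

lemma vs_cn {g u : Γ} (hu : Nm u K) {z : MonoidAlgebra R Γ} (hz : z ∈ VS R K g) :
    cn u z ∈ VS R K (u * g * u⁻¹) := by
  refine ⟨fun x hx => ?_, fun k hk x => ?_⟩
  · rw [coeff_cn] at hx
    have h1 := hz.1 _ hx
    have h2 : (u * g * u⁻¹)⁻¹ * x = u * (g⁻¹ * (u⁻¹ * x * u)) * u⁻¹ := by group
    rw [h2]
    exact (hu _).2 h1
  · rw [coeff_cn, coeff_cn]
    have h1 := hz.2 _ ((nm_iff hu k).2 hk) (u⁻¹ * x * u)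
    rw [← h1]
    congr 1
    group

lemma cn_mul (u : Γ) (z w : MonoidAlgebra R Γ) : cn u (z * w) = cn u z * cn u w := by
  apply MonoidAlgebra.ext; ext x
  rw [coeff_cn, coeff_mul_group, coeff_mul_group]
  rw [← Equiv.sum_comp (MulAut.conj u⁻¹).toEquiv]
  refine Finset.sum_congr rfl fun a _ => ?_
  have h1 : (MulAut.conj u⁻¹).toEquiv a = u⁻¹ * a * u := by simp [MulAut.conj_apply]
  rw [h1, coeff_cn, coeff_cn]
  congr 2
  group

lemma cn_add (u : Γ) (z w : MonoidAlgebra R Γ) : cn u (z + w) = cn u z + cn u w := by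
  apply MonoidAlgebra.ext; ext x
  rw [coeff_cn, MonoidAlgebra.coeff_add, MonoidAlgebra.coeff_add, Finsupp.add_apply,
    Finsupp.add_apply, coeff_cn, coeff_cn]

lemma cn_cn (u v : Γ) (z : MonoidAlgebra R Γ) : cn u (cn v z) = cn (u * v) z := by
  apply MonoidAlgebra.ext; ext x
  rw [coeff_cn, coeff_cn, coeff_cn]
  congr 1
  group

lemma cn_one_left (z : MonoidAlgebra R Γ) : cn 1 z = z := by
  apply MonoidAlgebra.ext; ext x
  rw [coeff_cn]
  congr 1
  group

lemma cn_one (u : Γ) : cn u (1 : MonoidAlgebra R Γ) = 1 := by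
  unfold cn
  rw [mul_one, MonoidAlgebra.single_mul_single, mul_inv_cancel, mul_one]
  rfl

lemma cst_vs {G : Subgroup Γ} (hn : NIn K G) {z : MonoidAlgebra R Γ} (hz : z ∈ ZA R G K)
    (g : Γ) : cst K g z ∈ VS R K g := by
  obtain ⟨h1, h2⟩ := hz
  refine ⟨fun x hx => ?_, fun k hk x => ?_⟩
  · rw [coeff_cst] at hx
    by_contra h
    rw [if_neg h] at hx
    exact hx rfl
  · rw [coeff_cst, coeff_cst, h2 k hk x]
    by_cases hx : z.coeff x = 0
    · rw [hx, ite_self, ite_self]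
    · have hxG : x ∈ G := by
        by_contra h
        exact hx (h1 x h)
      have hkG : k ∈ G := hn.le hk
      have hiff : g⁻¹ * (k * x * k⁻¹) ∈ K ↔ g⁻¹ * x ∈ K := by
        by_cases hg : g ∈ G
        · have h3 : g⁻¹ * (k * x * k⁻¹) = (g⁻¹ * k * (g⁻¹)⁻¹) * (g⁻¹ * x) * k⁻¹ := by group
          have h4 := hn.nor g⁻¹ (G.inv_mem hg) k hk
          rw [h3]
          constructor
          · intro h
            have h5 := K.mul_mem (K.mul_mem (K.inv_mem h4) h) hk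
            have h6 : (g⁻¹ * k * (g⁻¹)⁻¹)⁻¹ * ((g⁻¹ * k * (g⁻¹)⁻¹) * (g⁻¹ * x) * k⁻¹) * k =
                g⁻¹ * x := by group
            rwa [h6] at h5
          · intro h
            exact K.mul_mem (K.mul_mem h4 h) (K.inv_mem hk)
        · constructor
          · intro h
            exfalso
            apply hg
            have h5 : g = (k * x * k⁻¹) * (g⁻¹ * (k * x * k⁻¹))⁻¹ := by group
            rw [h5]
            exact G.mul_mem (G.mul_mem (G.mul_mem hkG hxG) (G.inv_mem hkG))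
              (G.inv_mem (hn.le h))
          · intro h
            exfalso
            apply hg
            have h5 : g = x * (g⁻¹ * x)⁻¹ := by group
            rw [h5]
            exact G.mul_mem hxG (G.inv_mem (hn.le h))
      rw [if_congr hiff rfl rfl]

lemma cst_sum {G : Subgroup Γ} {z : MonoidAlgebra R Γ}
    (hz : ∀ x, x ∉ G → z.coeff x = 0) (T : Finset Γ) (hT : Tv T K G) :
    z = ∑ g ∈ T, cst K g z := by
  apply MonoidAlgebra.ext; ext x
  have h1 : (∑ g ∈ T, cst K g z).coeff x = ∑ g ∈ T, (cst K g z).coeff x := by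
    rw [MonoidAlgebra.coeff_sum, Finsupp.finsetSum_apply]
  rw [h1]
  by_cases hx : x ∈ G
  · obtain ⟨r, ⟨hr1, hr2⟩, hr3⟩ := hT.2 x hx
    rw [Finset.sum_eq_single r]
    · rw [coeff_cst, if_pos hr2]
    · intro b hb hbr
      rw [coeff_cst, if_neg]
      intro h
      exact hbr (hr3 b ⟨hb, h⟩)
    · intro h
      exact absurd hr1 h
  · rw [hz x hx]
    symm
    refine Finset.sum_eq_zero fun g _ => ?_
    rw [coeff_cst, hz x hx, ite_self]

lemma cn_cst {G : Subgroup Γ} (hn : NIn K G) {z : MonoidAlgebra R Γ} (hz : z ∈ ZA R G G)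
    {u : Γ} (hu : u ∈ G) (g : Γ) : cn u (cst K g z) = cst K (u * g * u⁻¹) z := by
  apply MonoidAlgebra.ext; ext x
  rw [coeff_cn, coeff_cst, coeff_cst]
  have h1 : z.coeff (u⁻¹ * x * u) = z.coeff x := by
    have := hz.2 u⁻¹ (G.inv_mem hu) x
    rwa [inv_inv] at this
  have h2 : g⁻¹ * (u⁻¹ * x * u) ∈ K ↔ (u * g * u⁻¹)⁻¹ * x ∈ K := by
    constructor
    · intro h
      have h3 := hn.nor u hu _ h
      have h4 : u * (g⁻¹ * (u⁻¹ * x * u)) * u⁻¹ = (u * g * u⁻¹)⁻¹ * x := by group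
      rwa [h4] at h3
    · intro h
      have h3 := hn.nor u⁻¹ (G.inv_mem hu) _ h
      have h4 : u⁻¹ * ((u * g * u⁻¹)⁻¹ * x) * (u⁻¹)⁻¹ = g⁻¹ * (u⁻¹ * x * u) := by group
      rwa [h4] at h3
  rw [h1, if_congr h2 rfl rfl]

lemma exists_tv {G : Subgroup Γ} (_h : K ≤ G) :
    ∃ T : Finset Γ, Tv T K G ∧ T.card = K.relIndex G := by
  let f : G ⧸ K.subgroupOf G → Γ := fun q => ((Quotient.out q : G) : Γ)
  have hf : Function.Injective f := by
    intro q q' hq
    have h1 : (Quotient.out q : G) = Quotient.out q' := Subtype.ext hq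
    rw [← Quotient.out_eq q, ← Quotient.out_eq q', h1]
  refine ⟨Finset.univ.image f, ⟨?_, ?_⟩, ?_⟩
  · intro r hr
    obtain ⟨q, -, rfl⟩ := Finset.mem_image.1 hr
    exact (Quotient.out q : G).2
  · intro u hu
    refine ⟨f (QuotientGroup.mk ⟨u, hu⟩), ⟨Finset.mem_image_of_mem _ (Finset.mem_univ _), ?_⟩, ?_⟩
    · have h1 : (QuotientGroup.mk (Quotient.out (QuotientGroup.mk ⟨u, hu⟩ :
          G ⧸ K.subgroupOf G)) : G ⧸ K.subgroupOf G) = QuotientGroup.mk ⟨u, hu⟩ :=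
        QuotientGroup.out_eq' _
      rw [QuotientGroup.eq] at h1
      exact Subgroup.mem_subgroupOf.1 h1
    · rintro r ⟨hr, hr2⟩
      obtain ⟨q, -, rfl⟩ := Finset.mem_image.1 hr
      have h1 : (QuotientGroup.mk (Quotient.out q) : G ⧸ K.subgroupOf G) =
          QuotientGroup.mk ⟨u, hu⟩ := by
        rw [QuotientGroup.eq]
        exact Subgroup.mem_subgroupOf.2 hr2
      rw [QuotientGroup.out_eq'] at h1
      rw [h1]
  · rw [Finset.card_image_of_injective _ hf, Finset.card_univ, ← Nat.card_eq_fintype_card]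
    rfl

theorem vm : T_VM := by
  intro R _ Γ _ _ K
  refine ⟨?_, ?_, ?_, ?_, vs_one, ?_, ?_, ?_, ?_⟩
  · intro g h hg hh z hz w hw
    exact ⟨vs_mul hh hz hw, vs_comm hz hw⟩
  · intro g z hz w hw
    refine ⟨⟨fun x hx => ?_, fun k hk x => ?_⟩, fun c => ⟨fun x hx => ?_, fun k hk x => ?_⟩⟩
    · rw [MonoidAlgebra.coeff_add, Finsupp.add_apply] at hx
      by_cases h : z.coeff x = 0
      · rw [h, zero_add] at hx
        exact hw.1 x hx
      · exact hz.1 x h
    · rw [MonoidAlgebra.coeff_add, Finsupp.add_apply, Finsupp.add_apply, hz.2 k hk, hw.2 k hk]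
    · rw [MonoidAlgebra.coeff_smul, Finsupp.smul_apply] at hx
      refine hz.1 x fun h => hx ?_
      rw [h, smul_zero]
    · rw [MonoidAlgebra.coeff_smul, Finsupp.smul_apply, Finsupp.smul_apply, hz.2 k hk]
  · intro g hg z hz
    refine ⟨fun n => vs_pow hg hz n, fun c hc => vs_cent hz c hc, fun k hk => ⟨⟨fun x hx => ?_,
      hz.2⟩, ⟨fun x hx => ?_, hz.2⟩⟩⟩
    · have h1 : (g * k)⁻¹ * x = k⁻¹ * (g⁻¹ * x) := by group
      rw [h1]
      exact K.mul_mem (K.inv_mem hk) (hz.1 x hx)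
    · have h1 : (k * g)⁻¹ * x = (g⁻¹ * k⁻¹ * g) * (g⁻¹ * x) := by group
      rw [h1]
      exact K.mul_mem ((nm_iff hg _).2 (K.inv_mem hk)) (hz.1 x hx)
  · intro g u _ hu z hz
    exact vs_cn hu hz
  · intro u v z w
    exact ⟨cn_mul u z w, cn_add u z w, cn_cn u v z, cn_one_left z, cn_one u, fun x =>
      coeff_cn u z x⟩
  · intro G hn z hz
    have hz' : z ∈ ZA R G K := ⟨hz.1, fun u hu => hz.2 u (hn.le hu)⟩
    exact ⟨fun g => cst_vs hn hz' g, fun u hu g => cn_cst hn hz hu g, fun T hT =>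
      cst_sum hz.1 T hT⟩
  · intro G z hz hn
    exact ⟨fun g => cst_vs hn hz g, fun T hT => cst_sum hz.1 T hT⟩
  · intro G hG
    exact exists_tv hG

end Pool.Agent.H42.T2
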